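import Pool.Agent.W997.CS.Stm
import Pool.Agent.W216.CFMEM

set_option autoImplicit false

namespace Pool.Agent.W750.CSLEN

open Pool.Agent.W997.CS
open Pool.Agent.W997.DB (Word Var Input value shift rootBit)
open Pool.Agent.W997.CF (TL ev digits tree arg mach)
open Pool.Agent.W216.CFMEM (length_tree length_digits length_flatMap_le)

theorem length_flatMap_eq {α β : Type} (f : α → List β) (c : ℕ) (h : ∀ s, (f s).length = c)
    (l : List α) : (l.flatMap f).length = l.length * c := by
  induction l with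
  | nil => simp
  | cons s l ih =>
    rw [List.flatMap_cons, List.length_append, List.length_cons, Nat.add_mul, Nat.one_mul, ih, h s]
    omega

theorem length_pre (D ρ h L : ℕ) :
    (pre D ρ h L).length = Fintype.card (Var D ρ h (2 ^ L)) * L := by
  unfold pre
  rw [length_flatMap_eq _ L (fun u => length_digits L u), Finset.length_toList]
  rfl

theorem length_tmpl {D ρ h : ℕ} (L : ℕ) : ∀ (j : ℕ) (hj : j ≤ h) (g : Word D ρ) (i : Fin D),
    (tmpl L j hj g i).length ≤
      D ^ j * L + (∑ t ∈ Finset.range j, D ^ t) * (2 ^ (D * L) * (L + 3)) := by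
  intro j
  induction j with
  | zero =>
    intro hj g i
    rw [tmpl, length_digits]
    simp
  | succ j ih =>
    intro hj g i
    rw [tmpl, List.length_append]
    have h1 := length_flatMap_le
      (fun s => tmpl L j (Nat.le_of_succ_le hj) (shift g i) s) _
      (fun s => ih (Nat.le_of_succ_le hj) (shift g i) s) (List.finRange D)
    rw [List.length_finRange] at h1
    have h2 := length_tree L (D * L) (entry L ⟨j, hj⟩ g i) (fun a => length_digits L _)
    rw [geom_sum_succ]
    set T := 2 ^ (D * L) * (L + 3) with hT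
    set S := ∑ t ∈ Finset.range j, D ^ t with hS
    calc _ ≤ D * (D ^ j * L + S * T) + T := Nat.add_le_add h1 (by omega)
      _ = D ^ (j + 1) * L + (D * S + 1) * T := by ring

theorem geom_le (D : ℕ) (hD : 2 ≤ D) (j : ℕ) : (∑ t ∈ Finset.range j, D ^ t) ≤ D ^ j := by
  induction j with
  | zero => simp
  | succ j ih =>
    rw [Finset.sum_range_succ, pow_succ]
    calc (∑ t ∈ Finset.range j, D ^ t) + D ^ j ≤ D ^ j + D ^ j := Nat.add_le_add_right ih _
      _ = D ^ j * 2 := by ring
      _ ≤ D ^ j * D := Nat.mul_le_mul_left _ hD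

theorem main : Pool.Agent.W997.CS.S_LEN := by
  intro D ρ h L g i hD hL hh hρ
  have hN : Fintype.card (Var D ρ h (2 ^ L)) =
      h * (D ^ (ρ + 1) * (D * (2 ^ L) ^ D)) + D ^ (ρ + 1) * D := by
    simp only [Fintype.card_sum, Fintype.card_prod, Fintype.card_fun, Fintype.card_fin]
  unfold wd
  rw [List.length_append, List.length_append, List.length_singleton, length_pre]
  have h1 := length_tmpl L h le_rfl g i
  have hD1 : 1 ≤ D := by omega
  have hpow : D ^ h ≤ D ^ (ρ + 1) := Nat.pow_le_pow_right hD1 (by omega)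
  have hA : D ^ h ≤ Fintype.card (Var D ρ h (2 ^ L)) := by
    rw [hN]
    calc D ^ h ≤ D ^ (ρ + 1) := hpow
      _ ≤ D ^ (ρ + 1) * D := Nat.le_mul_of_pos_right _ hD1
      _ ≤ _ := Nat.le_add_left _ _
  have hB : (∑ t ∈ Finset.range h, D ^ t) * 2 ^ (D * L) ≤
      Fintype.card (Var D ρ h (2 ^ L)) := by
    rw [hN]
    have e1 : 2 ^ (D * L) = (2 ^ L) ^ D := by rw [← pow_mul, mul_comm]
    rw [e1]
    calc (∑ t ∈ Finset.range h, D ^ t) * (2 ^ L) ^ D
        ≤ D ^ (ρ + 1) * (D * (2 ^ L) ^ D) :=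
          Nat.mul_le_mul (le_trans (geom_le D hD h) hpow)
            (Nat.le_mul_of_pos_left _ hD1)
      _ ≤ h * (D ^ (ρ + 1) * (D * (2 ^ L) ^ D)) := Nat.le_mul_of_pos_left _ hh
      _ ≤ _ := Nat.le_add_right _ _
  set N := Fintype.card (Var D ρ h (2 ^ L)) with hNdef
  have hN1 : 1 ≤ N := le_trans (Nat.one_le_pow _ _ hD1) hA
  have h2 : D ^ h * L ≤ N * L := Nat.mul_le_mul_right _ hA
  have h3 : (∑ t ∈ Finset.range h, D ^ t) * (2 ^ (D * L) * (L + 3)) ≤ N * (L + 3) := by
    rw [← mul_assoc]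
    exact Nat.mul_le_mul_right _ hB
  have h4 : N * (3 * L + 4) = N * L + (N * L + N * (L + 3) + N) := by ring
  rw [h4]
  omega

end Pool.Agent.W750.CSLEN
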