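import Pool.Agent.W217.BE.Stm2

set_option autoImplicit false

namespace Pool.Agent.W750.BEMINP

open Pool.Agent.W217.BE

/-- exponents supported off `J`. -/
def Good {k : ℕ} (J : Fin k → Bool) (α : Fin k →₀ ℕ) : Prop := ∀ j, J j = true → α j = 0

/-- all coefficients supported off `J` are in `q`. -/
def InQ {A : Type} [CommRing A] {k : ℕ} (J : Fin k → Bool) (q : Ideal A)
    (f : MvPolynomial (Fin k) A) : Prop :=
  ∀ α, Good J α → MvPolynomial.coeff α f ∈ q

theorem mem_of_inQ {A : Type} [CommRing A] {k : ℕ} (J : Fin k → Bool) (q : Ideal A)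
    (L : Ideal (MvPolynomial (Fin k) A)) (h1 : ∀ a ∈ q, MvPolynomial.C a ∈ L)
    (h2 : ∀ j, J j = true → MvPolynomial.X j ∈ L) (f : MvPolynomial (Fin k) A)
    (hf : InQ J q f) : f ∈ L := by
  rw [f.as_sum]
  refine L.sum_mem fun α _ => ?_
  by_cases hα : Good J α
  · have : (MvPolynomial.monomial α (MvPolynomial.coeff α f) : MvPolynomial (Fin k) A) =
        MvPolynomial.monomial α 1 * MvPolynomial.C (MvPolynomial.coeff α f) := by
      rw [mul_comm, MvPolynomial.C_mul_monomial, mul_one]
    rw [this]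
    exact L.mul_mem_left _ (h1 _ (hf α hα))
  · unfold Good at hα
    push Not at hα
    obtain ⟨j, hj, hj0⟩ := hα
    have : (MvPolynomial.X j : MvPolynomial (Fin k) A) ∣
        MvPolynomial.monomial α (MvPolynomial.coeff α f) :=
      MvPolynomial.X_dvd_monomial.2 (Or.inr hj0)
    exact L.mem_of_dvd this (h2 j hj)

/-- reduction modulo `q` and the variables of `J`. -/
noncomputable def psi {A : Type} [CommRing A] {k : ℕ} (J : Fin k → Bool) (q : Ideal A) :
    MvPolynomial (Fin k) A →+* MvPolynomial (Fin k) (A ⧸ q) :=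
  MvPolynomial.eval₂Hom ((MvPolynomial.C).comp (Ideal.Quotient.mk q))
    (fun j => if J j = true then 0 else MvPolynomial.X j)

theorem prod_good {S : Type} [CommRing S] {k : ℕ} (J : Fin k → Bool) (g : Fin k → S)
    (α : Fin k →₀ ℕ) (hα : Good J α) :
    ∏ i, (if J i = true then 0 else g i) ^ α i = ∏ i, g i ^ α i := by
  refine Finset.prod_congr rfl fun i _ => ?_
  by_cases hi : J i = true
  · rw [hα i hi, pow_zero, pow_zero]
  · rw [if_neg hi]

theorem prod_bad {S : Type} [CommRing S] {k : ℕ} (J : Fin k → Bool) (g : Fin k → S)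
    (α : Fin k →₀ ℕ) (hα : ¬ Good J α) :
    ∏ i, (if J i = true then 0 else g i) ^ α i = 0 := by
  unfold Good at hα
  push Not at hα
  obtain ⟨j, hj, hj0⟩ := hα
  refine Finset.prod_eq_zero (Finset.mem_univ j) ?_
  rw [if_pos hj, zero_pow hj0]

open Classical in
theorem psi_eq {A : Type} [CommRing A] {k : ℕ} (J : Fin k → Bool) (q : Ideal A)
    (f : MvPolynomial (Fin k) A) : psi J q f = ∑ d ∈ f.support,
      MvPolynomial.monomial d (if Good J d then Ideal.Quotient.mk q (MvPolynomial.coeff d f)
        else 0) := by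
  unfold psi
  rw [MvPolynomial.coe_eval₂Hom, MvPolynomial.eval₂_eq']
  refine Finset.sum_congr rfl fun d _ => ?_
  by_cases hd : Good J d
  · rw [prod_good J _ d hd, if_pos hd, MvPolynomial.monomial_eq, Finsupp.prod_fintype]
    · rfl
    · intro i
      rw [pow_zero]
  · rw [prod_bad J _ d hd, if_neg hd, mul_zero, map_zero]

theorem psi_zero_iff {A : Type} [CommRing A] {k : ℕ} (J : Fin k → Bool) (q : Ideal A)
    (f : MvPolynomial (Fin k) A) : psi J q f = 0 ↔ InQ J q f := by
  classical
  constructor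
  · intro h β hβ
    rw [psi_eq] at h
    have h1 := congrArg (MvPolynomial.coeff β) h
    rw [MvPolynomial.coeff_sum, MvPolynomial.coeff_zero] at h1
    by_cases hb : β ∈ f.support
    · rw [Finset.sum_eq_single β] at h1
      · rw [MvPolynomial.coeff_monomial, if_pos rfl, if_pos hβ] at h1
        exact Ideal.Quotient.eq_zero_iff_mem.1 h1
      · intro d _ hd
        rw [MvPolynomial.coeff_monomial, if_neg hd]
      · intro h2
        exact absurd hb h2
    · rw [MvPolynomial.notMem_support_iff.1 hb]
      exact q.zero_mem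
  · intro h
    rw [psi_eq]
    refine Finset.sum_eq_zero fun d _ => ?_
    by_cases hd : Good J d
    · rw [if_pos hd, Ideal.Quotient.eq_zero_iff_mem.2 (h d hd), map_zero]
    · rw [if_neg hd, map_zero]

theorem chi_zero {A : Type} [CommRing A] (q : Ideal A) [q.IsPrime] (a : A) :
    chi q a = 0 ↔ a ∈ q := by
  unfold chi
  rw [RingHom.comp_apply, IsLocalRing.residue_eq_zero_iff,
    IsLocalization.AtPrime.to_map_mem_maximal_iff (Localization.AtPrime q) q]

theorem chiJ_inQ {A : Type} [CommRing A] {k : ℕ} (J : Fin k → Bool) (q : Ideal A) [q.IsPrime]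
    (f : MvPolynomial (Fin k) A) (h : InQ J q f) : chiJ (chi q) J f = 0 := by
  unfold chiJ
  rw [MvPolynomial.coe_eval₂Hom, MvPolynomial.eval₂_eq']
  refine Finset.sum_eq_zero fun d _ => ?_
  by_cases hd : Good J d
  · rw [(chi_zero q _).2 (h d hd), zero_mul]
  · rw [prod_bad J _ d hd, mul_zero]

theorem chiJ_mono {A : Type} [CommRing A] {k : ℕ} (J : Fin k → Bool) (q : Ideal A) [q.IsPrime]
    (α : Fin k →₀ ℕ) (a : A) (hα : Good J α) (ha : a ∉ q) :
    chiJ (chi q) J (MvPolynomial.monomial α a) ≠ 0 := by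
  unfold chiJ
  rw [MvPolynomial.eval₂Hom_monomial, Finsupp.prod_fintype _ _ (fun i => pow_zero _),
    prod_good J _ α hα]
  simp only [one_pow, Finset.prod_const_one, mul_one]
  exact fun h => ha ((chi_zero q a).1 h)

theorem main : HOMANN → MINP := by
  intro hH A _ _ k M _ _ _ _ _ ℳ hint hmul Q hQ q hq J hqQ hJ
  have hI := hH A k M ℳ hint hmul
  have hQp : Q.IsPrime := hQ.1.1
  have hIQ : Module.annihilator (MvPolynomial (Fin k) A) M ≤ Q := hQ.1.2
  have hqC : ∀ a, a ∈ q ↔ (MvPolynomial.C a : MvPolynomial (Fin k) A) ∈ Q := by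
    intro a
    rw [hqQ]
    rfl
  -- the kernel
  have hker1 : RingHom.ker (psi J q) ≤ Q := by
    intro f hf
    exact mem_of_inQ J q Q (fun a ha => (hqC a).1 ha) (fun j hj => (hJ j).1 hj) f
      ((psi_zero_iff J q f).1 hf)
  have hker2 : Module.annihilator (MvPolynomial (Fin k) A) M ≤ RingHom.ker (psi J q) := by
    intro f hf
    rw [RingHom.mem_ker, psi_zero_iff]
    intro α hα
    have h1 := hIQ (hI f hf α)
    rw [MvPolynomial.monomial_eq] at h1
    rcases hQp.mem_or_mem h1 with h2 | h2
    · exact (hqC _).2 h2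
    · exfalso
      unfold Finsupp.prod at h2
      obtain ⟨j, hj, hj2⟩ := (Ideal.IsPrime.prod_mem_iff).1 h2
      have h3 := hQp.mem_of_pow_mem _ hj2
      have h4 := hα j ((hJ j).2 h3)
      exact (Finsupp.mem_support_iff.1 hj) h4
  have hkp : (RingHom.ker (psi J q)).IsPrime := RingHom.ker_isPrime _
  have hQker : Q ≤ RingHom.ker (psi J q) := hQ.2 ⟨hkp, hker2⟩ hker1
  have hQin : ∀ f, f ∈ Q ↔ InQ J q f := by
    intro f
    rw [← psi_zero_iff]
    exact ⟨fun h => hQker h, fun h => hker1 h⟩
  refine ⟨?_, ?_, ?_⟩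
  · -- nonzero
    have hsup : (⟨Q, hQp⟩ : PrimeSpectrum (MvPolynomial (Fin k) A)) ∈
        Module.support (MvPolynomial (Fin k) A) M := by
      rw [Module.mem_support_iff_of_finite]
      exact hIQ
    obtain ⟨x, hx⟩ := Module.mem_support_iff_exists_annihilator.1 hsup
    refine ⟨x, fun s hs h0 => hs ?_⟩
    have h1 : s ∈ Q := hx ((Submodule.mem_annihilator_span_singleton x s).2 h0)
    exact chiJ_inQ J q s ((hQin s).1 h1)
  · -- nilpotent
    intro j hj
    have hXQ := (hJ j).1 hj
    obtain ⟨s, hs, n, hsn⟩ : ∃ s, s ∉ Q ∧ ∃ n : ℕ, s * MvPolynomial.X j ^ n ∈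
        Module.annihilator (MvPolynomial (Fin k) A) M := by
      by_contra hcon
      push Not at hcon
      have hdis : Disjoint ((Module.annihilator (MvPolynomial (Fin k) A) M : Ideal _) :
          Set (MvPolynomial (Fin k) A))
          ((Q.primeCompl ⊔ Submonoid.powers (MvPolynomial.X j) :
            Submonoid (MvPolynomial (Fin k) A)) : Set (MvPolynomial (Fin k) A)) := by
        rw [Set.disjoint_left]
        intro y hy1 hy2
        obtain ⟨s, hs, z, hz, rfl⟩ := Submonoid.mem_sup.1 hy2
        obtain ⟨n, rfl⟩ := hz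
        exact hcon s hs n hy1
      obtain ⟨p, hp, hIp, hpd⟩ := Ideal.exists_le_prime_disjoint _ _ hdis
      have hpQ : p ≤ Q := by
        intro y hy
        by_contra hyQ
        exact (Set.disjoint_left.1 hpd hy) (Submonoid.mem_sup.2 ⟨y, hyQ, 1, one_mem _, mul_one y⟩)
      have hQp' : Q ≤ p := hQ.2 ⟨hp, hIp⟩ hpQ
      exact (Set.disjoint_left.1 hpd (hQp' hXQ)) (Submonoid.mem_sup.2
        ⟨1, one_mem _, _, Submonoid.mem_powers _, one_mul _⟩)
    rw [hQin] at hs
    unfold InQ at hs
    push Not at hs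
    obtain ⟨α, hα, ha⟩ := hs
    refine ⟨n, MvPolynomial.monomial α (MvPolynomial.coeff α s), chiJ_mono J q α _ hα ha, ?_⟩
    have h1 := hI _ hsn (α + Finsupp.single j n)
    have h2 : (MvPolynomial.monomial (α + Finsupp.single j n)
        (MvPolynomial.coeff (α + Finsupp.single j n) (s * MvPolynomial.X j ^ n)) :
        MvPolynomial (Fin k) A) =
        MvPolynomial.monomial α (MvPolynomial.coeff α s) * MvPolynomial.X j ^ n := by
      rw [MvPolynomial.X_pow_eq_monomial, MvPolynomial.coeff_mul_monomial, mul_one,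
        MvPolynomial.monomial_mul, mul_one]
    rw [h2] at h1
    exact fun x => Module.mem_annihilator.1 h1 x
  · -- height
    have hlo : Q.LiesOver q := ⟨hqQ⟩
    refine (Ideal.height_le_height_add_of_liesOver q Q).trans ?_
    refine add_le_add le_rfl ?_
    classical
    set mk := Ideal.Quotient.mk (Ideal.map (algebraMap A (MvPolynomial (Fin k) A)) q) with hmk
    set T : Finset (Fin k) := Finset.univ.filter (fun j => J j = true) with hT
    set U : Set (MvPolynomial (Fin k) A ⧸ Ideal.map (algebraMap A (MvPolynomial (Fin k) A)) q) :=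
      (fun j => mk (MvPolynomial.X j)) '' (T : Set (Fin k)) with hU
    have hmapQ : Ideal.map mk Q = Ideal.span U := by
      apply le_antisymm
      · rw [Ideal.map_le_iff_le_comap]
        intro f hf
        refine mem_of_inQ J q (Ideal.comap mk (Ideal.span U)) ?_ ?_ f ((hQin f).1 hf)
        · intro a ha
          rw [Ideal.mem_comap]
          have : mk (MvPolynomial.C a) = 0 :=
            Ideal.Quotient.eq_zero_iff_mem.2 (Ideal.mem_map_of_mem (algebraMap A _) ha)
          rw [this]
          exact Ideal.zero_mem _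
        · intro j hj
          rw [Ideal.mem_comap]
          refine Ideal.subset_span ⟨j, ?_, rfl⟩
          rw [hT, Finset.mem_coe, Finset.mem_filter]
          exact ⟨Finset.mem_univ _, hj⟩
      · rw [Ideal.span_le]
        rintro _ ⟨j, hj, rfl⟩
        rw [hT, Finset.mem_coe, Finset.mem_filter] at hj
        exact Ideal.mem_map_of_mem mk ((hJ j).1 hj.2)
    have hle : Ideal.map (algebraMap A (MvPolynomial (Fin k) A)) q ≤ Q := by
      rw [Ideal.map_le_iff_le_comap, hqQ]
    have hne : Ideal.map mk Q ≠ ⊤ := by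
      intro h
      have h1 := congrArg (Ideal.comap mk) h
      rw [Ideal.comap_map_of_surjective _ Ideal.Quotient.mk_surjective, Ideal.comap_top] at h1
      apply hQp.ne_top
      rw [← h1]
      apply le_antisymm
      · exact le_sup_left
      · refine sup_le le_rfl ?_
        intro y hy
        rw [Ideal.mem_comap, Ideal.mem_bot] at hy
        exact hle (Ideal.Quotient.eq_zero_iff_mem.1 hy)
    refine (Ideal.height_le_spanFinrank _ hne).trans ?_
    rw [hmapQ]
    have hUf : U.Finite := (T.finite_toSet).image _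
    have h5 : (Submodule.spanFinrank (Ideal.span U)) ≤ U.ncard :=
      Submodule.spanFinrank_span_le_ncard_of_finite hUf
    have h6 : U.ncard ≤ T.card := by
      refine (Set.ncard_image_le T.finite_toSet).trans ?_
      rw [Set.ncard_coe_finset]
    have h7 : T.card = ∑ j, if J j = true then 1 else 0 := by
      rw [hT, Finset.card_filter]
    rw [← h7]
    exact_mod_cast h5.trans h6

end Pool.Agent.W750.BEMINP
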